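import Pool.Agent.R942.WB.Defs

/-!
# The difference of the third and the first Betti number of a stratum
-/

set_option autoImplicit false

namespace Pool.Agent.R942.WR

open Module Pool.Agent.Y143

universe u v

/-- The difference `b_3 - b_1` of the Betti numbers of the stratum `Y^(a+1)`. -/
noncomputable def oddRank {Ω : Type u} [Field Ω] [CharZero Ω] {Γ : Type} {n q : ℕ}
    (X : SemistableModel.{u, v} Ω Γ n q) (a : ℕ) : ℕ :=
  finrank Ω (X.gr a 3) - finrank Ω (X.gr a 1)

end Pool.Agent.R942.WR
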