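import Pool.Agent.R942.WR.Rho
import Pool.Agent.R942.WR.BettiDefs

/-!
# The cokernel of `N ^ i` in the weight one, and the third Betti numbers
-/

set_option autoImplicit false

namespace Pool.Agent.R942.WR

open Module Submodule Pool.Agent.Y143 Pool.Agent.R942.WM Pool.Agent.R942.WB

universe u v

variable {Ω : Type u} [Field Ω] [CharZero Ω] {Γ : Type} {n q : ℕ}

section Fibre

variable {X : SpecialFibre.{u, v} Ω Γ n q}

/-- The dimension of the kernel of a power of the Lefschetz operator. -/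
lemma lef_ker {a D i : ℕ} (hD : n = a + D) (hi : i + 1 ≤ D) :
    finrank Ω (X.gr a ((i : ℤ) + 2) ⊓ LinearMap.ker (X.lef a ^ (D - i - 1)) :
      Submodule Ω (X.H a)) + finrank Ω (X.gr a i) ≤ finrank Ω (X.gr a ((i : ℤ) + 2)) := by
  set s := D - i - 1 with hs
  set T := X.gr a ((i : ℤ) + 2 + 2 * s) with hT
  have h1 : (X.gr a i).map (X.lef a ^ (s + 1)) = T := by
    apply le_antisymm
    · rintro _ ⟨x, hx, rfl⟩
      have := lef_pow_gr (X := X) hx (s + 1)
      rwa [show (i : ℤ) + 2 * ((s + 1 : ℕ) : ℤ) = (i : ℤ) + 2 + 2 * s by push_cast; ring] at this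
    · intro y hy
      obtain ⟨x, hx, hxy⟩ := X.lef_surj a (D - i) y (by
        rwa [show (n : ℤ) - a + ((D - i : ℕ) : ℤ) = (i : ℤ) + 2 + 2 * s by omega])
      refine ⟨x, ?_, ?_⟩
      · rwa [show (n : ℤ) - a - ((D - i : ℕ) : ℤ) = i by omega] at hx
      · rwa [show s + 1 = D - i by omega]
  have h2 : finrank Ω (X.gr a i) ≤ finrank Ω T := by
    have h3 := finrank_map_add_ker (X.lef a ^ (s + 1)) (X.gr a i)
    rw [h1] at h3
    have h4 : (X.gr a i ⊓ LinearMap.ker (X.lef a ^ (s + 1)) : Submodule Ω (X.H a)) = ⊥ := by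
      rw [eq_bot_iff]
      rintro x ⟨hx, hx'⟩
      apply X.lef_inj a (D - i) x
      · rwa [show (n : ℤ) - a - ((D - i : ℕ) : ℤ) = i by omega]
      · rw [show D - i = s + 1 by omega]
        exact hx'
    rw [h4, finrank_bot] at h3
    omega
  have h5 : T ≤ (X.gr a ((i : ℤ) + 2)).map (X.lef a ^ s) := by
    rw [← h1]
    rintro _ ⟨x, hx, rfl⟩
    refine ⟨X.lef a x, X.lef_gr _ _ _ hx, ?_⟩
    rw [lef_pow_lef]
  have h6 := finrank_map_add_ker (X.lef a ^ s) (X.gr a ((i : ℤ) + 2))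
  have h7 := Submodule.finrank_mono h5
  omega

/-- A degree-one class can be corrected such that its Gysin image is killed by a power of the
Lefschetz operator. -/
lemma one_surj' (A : DivisorClasses X) {a e : ℕ} (ha : n = a + 2 + e) {y : X.H (a + 1)}
    (hy : y ∈ X.gr (a + 1) 1) :
    ∃ u ∈ X.gr a 1, (X.lef a ^ e) (X.gys a (y - X.res a u)) = 0 := by
  let b : X.H (a + 1) →ₗ[Ω] X.H (a + 1) →ₗ[Ω] Ω :=
    (X.pair (a + 1)).compl₂ (X.lef (a + 1) ^ e)
  have he : n - a - 2 = e := by omega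
  let R : Submodule Ω (X.H (a + 1)) := (X.gr a 1).map (X.res a)
  have hR : ∀ r ∈ R, (∀ r' ∈ R, b r r' = 0) → r = 0 := by
    rintro _ ⟨u, hu, rfl⟩ h'
    apply A.weil_one a u hu
    intro y hy
    rw [he]
    exact h' _ ⟨y, hy, rfl⟩
  obtain ⟨_, ⟨u, hu, rfl⟩, h2⟩ := WM.exists_proj b R hR y
  refine ⟨u, hu, ?_⟩
  have hx1 : y - X.res a u ∈ X.gr (a + 1) 1 := Submodule.sub_mem _ hy (X.res_gr _ _ _ hu)
  have hx3 : X.gys a (y - X.res a u) ∈ X.gr a 3 := X.gys_gr a 1 _ hx1
  apply eq_zero_of_pair (m := 3 + 2 * e) (m' := 1) (by omega) (lef_pow_gr hx3 e)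
  intro y' hy'
  rw [lef_pow_pair, X.pair_gys, res_lef_pow]
  exact h2 _ ⟨y', hy', rfl⟩

/-- The dimension of the cokernel in the weight one. -/
lemma cok_one (A : DivisorClasses X) {a e : ℕ} (ha : n = a + 2 + e) :
    cok X.diff X.tot ((a + 1 : ℕ) : ℤ) (((a + 2 : ℕ) : ℤ) - n) ≤
      finrank Ω (X.gr a 3) - finrank Ω (X.gr a 1) := by
  set Z := Zc X.diff X.tot ((a + 1 : ℕ) : ℤ) (((a + 2 : ℕ) : ℤ) - n) with hZ
  set Z0 := Zc X.diff X.tot (-((a + 1 : ℕ) : ℤ)) (((a + 2 : ℕ) : ℤ) - n) ⊔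
    Bd X.diff X.tot ((a + 1 : ℕ) : ℤ) (((a + 2 : ℕ) : ℤ) - n) with hZ0
  set T := X.gr a 3 ⊓ LinearMap.ker (X.lef a ^ e) with hT
  have hle : Z0 ≤ Z := by
    apply sup_le _ (bd_le_zc' _ _)
    rintro x ⟨h1, h2⟩
    rw [tot_neg] at h1
    exact ⟨h1, X.diff_out (w := 0) (by push_cast; omega) h2⟩
  -- the relation
  let F : (X.C × X.H a) →ₗ[Ω] X.H a :=
    (X.gys a ∘ₗ LinearMap.proj (a + 1)) ∘ₗ LinearMap.fst Ω _ _ - LinearMap.snd Ω _ _
  have hF : ∀ y g, F (y, g) = X.gys a (y (a + 1)) - g := fun _ _ => rfl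
  let S : Submodule Ω (X.C × X.H a) := ((X.gr a 1).map (X.gys a ∘ₗ X.res a)).comap F
  have hS : ∀ y g, (y, g) ∈ S ↔ ∃ u ∈ X.gr a 1, X.gys a (X.res a u) = X.gys a (y (a + 1)) - g :=
    fun y g => Iff.rfl
  have h1 : (finrank Ω Z : ℤ) - finrank Ω Z0 ≤ finrank Ω T - finrank Ω (⊥ : Submodule Ω (X.H a)) := by
    refine finrank_rel S hle bot_le (fun y hy => ?_) (fun y g hy hg hyg hg0 => ?_)
    · have hy1 : y (a + 1) ∈ X.gr (a + 1) 1 := tot_deg hy.1 (by push_cast; ring)
      obtain ⟨u, hu, h2⟩ := one_surj' A ha hy1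
      refine ⟨X.gys a (y (a + 1) - X.res a u), ⟨?_, h2⟩, ?_⟩
      · exact X.gys_gr a 1 _ (Submodule.sub_mem _ hy1 (X.res_gr _ _ _ hu))
      · rw [hS]
        exact ⟨u, hu, by rw [map_sub]; abel⟩
    · rw [Submodule.mem_bot] at hg0
      subst hg0
      rw [hS, sub_zero] at hyg
      obtain ⟨u, hu, hug⟩ := hyg
      have hz := fam_mem (X := X) (a := a) (k := 1) hu
        (c := 0) (Submodule.zero_mem _)
      set z := fam a u (0 : X.H (a + 2)) with hzdef
      have hk : (1 : ℕ) ≤ 2 := by omega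
      have hy1 : y ∈ X.tot ((a + 1 : ℕ) : ℤ) (((a + 1 + 1 : ℕ) : ℤ) - n) :=
        tot_cast rfl (by push_cast; ring) hy.1
      have hdz : X.diff a z ∈ X.tot ((a + 1 : ℕ) : ℤ) (((a + 1 + 1 : ℕ) : ℤ) - n) := by
        have h9 := X.diff_mem (r := (a : ℤ)) hz
        exact X.mem_E₁_cast (by push_cast; ring) (by push_cast; ring) h9
      have hdd : X.diff ((a + 1 : ℕ) : ℤ) (X.diff a z) = 0 := by
        have := X.diff_diff (r := (a : ℤ)) hz
        rwa [show ((a : ℤ) + 1) = ((a + 1 : ℕ) : ℤ) by push_cast; ring] at this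
      have hy2' : X.diff ((a + 1 : ℕ) : ℤ) y = 0 := hy.2
      refine Submodule.mem_sup.2 ⟨y - X.diff a z, ?_, X.diff a z, ?_, by abel⟩
      · have hx : y - X.diff a z ∈ X.tot ((a + 1 : ℕ) : ℤ) (((a + 1 + 1 : ℕ) : ℤ) - n) :=
          Submodule.sub_mem _ hy1 hdz
        have hxn := hx
        rw [← tot_neg] at hxn
        refine ⟨tot_cast rfl (by push_cast; ring) hxn, ?_⟩
        rw [SetLike.mem_coe, LinearMap.mem_ker]
        have hdx : X.diff ((a + 1 : ℕ) : ℤ) (y - X.diff a z) = 0 := by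
          rw [map_sub, hy2', hdd, sub_zero]
        funext b
        by_cases hb : b = a
        · subst hb
          rw [diff_neg_val hxn, Pi.sub_apply, (diff_vals hk hz).1, hzdef, fam_left, fam_right,
            map_zero, add_zero, map_sub, hug, sub_self]
          rfl
        · rw [X.diff_apply]
          by_cases hc : InColumn (-(((a + 1 : ℕ) : ℤ)) + 1) b
          · rw [X.cut_of hc]
            rw [show (-(((a + 1 : ℕ) : ℤ)) + 1) = -((a : ℕ) : ℤ) by push_cast; ring, col_neg] at hc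
            have hb2 : a + 2 ≤ b := by
              obtain ⟨h4, h5⟩ := hc
              omega
            have hcol : InColumn (((a + 1 : ℕ) : ℤ) + 1) b := by
              have := (col_pos (a + 2) b).2 ⟨hb2, by push_cast; omega⟩
              rwa [show ((a + 2 : ℕ) : ℤ) = ((a + 1 : ℕ) : ℤ) + 1 by push_cast; ring] at this
            have := congrFun hdx b
            rw [diff_of hcol] at this
            exact this
          · rw [X.cut_of_not hc]
            rfl
      · exact ⟨z, tot_cast (by push_cast; ring) (by push_cast; ring) hz,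
          diff_cast (by push_cast; ring) z⟩
  have h2 := lef_ker (X := X) (a := a) (D := e + 2) (i := 1) (by omega) (by omega)
  have h3 : finrank Ω T + finrank Ω (X.gr a 1) ≤ finrank Ω (X.gr a 3) := by
    simpa using h2
  rw [finrank_bot] at h1
  unfold cok
  rw [← hZ, ← hZ0]
  omega

end Fibre

section Model

variable [IsAlgClosed Ω]

/-- The bounds in the degrees `m < n` on the second layer. -/
theorem bound_second {X : SemistableModel.{u, v} Ω Γ n q} (A : DivisorClasses X.toSpecialFibre)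
    {m : ℕ} (hm : 2 ≤ m) (hmn : m ≤ n) (j : ℤ) (hj : |j| = (m : ℤ) - 2) :
    WrongAtMost X m j (oddRank X (m - 2)) ∧ WrongAtMost X (2 * n - m) j (oddRank X (m - 2)) := by
  have hiso := main_one A (show 1 ≤ m by omega) hmn
  obtain ⟨a, rfl⟩ : ∃ a, m = a + 2 := ⟨m - 2, by omega⟩
  obtain ⟨e, he⟩ : ∃ e, n = a + 2 + e := ⟨n - (a + 2), by omega⟩
  rw [show a + 2 - 1 = a + 1 by omega] at hiso
  rw [show a + 2 - 2 = a by omega]
  have hcok := cok_one A he
  have hkap : kap X.diff X.tot ((a + 1 : ℕ) : ℤ) (((a + 2 : ℕ) : ℤ) - n) ≤ 0 := by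
    have h1 := Submodule.finrank_mono (nInj1 A a)
    unfold kap
    omega
  have hb : (finrank Ω (X.gr a 3) : ℤ) - finrank Ω (X.gr a 1) ≤ oddRank X a := by
    unfold oddRank
    omega
  have hdual : (((2 * n - (a + 2) : ℕ)) : ℤ) - n = -(((a + 2 : ℕ) : ℤ) - n) := by omega
  have hd1 := cok_dual (X := X.toSpecialFibre) ((a + 1 : ℕ) : ℤ) (by omega)
    (-(((a + 2 : ℕ) : ℤ) - n))
  have hd2 := cok_dual (X := X.toSpecialFibre) ((a + 1 : ℕ) : ℤ) (by omega)
    (((a + 2 : ℕ) : ℤ) - n)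
  rw [neg_neg] at hd1
  constructor
  · intro M hM
    rcases abs_choice j with h | h
    · have hj' : j = ((a + 1 : ℕ) : ℤ) - 1 := by push_cast at hj ⊢; omega
      rw [hj']
      exact (wrong_up hiso.1.iso hM (by omega)).trans (by omega)
    · have hj' : j = 1 - ((a + 1 : ℕ) : ℤ) := by push_cast at hj ⊢; omega
      rw [hj']
      exact (wrong_down hiso.1.iso hM (by omega)).trans (by omega)
  · intro M hM
    rcases abs_choice j with h | h
    · have hj' : j = ((a + 1 : ℕ) : ℤ) - 1 := by push_cast at hj ⊢; omega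
      rw [hj']
      refine (wrong_up hiso.2.iso hM (by omega)).trans ?_
      rw [hdual, hd1, ← hd2]
      omega
    · have hj' : j = 1 - ((a + 1 : ℕ) : ℤ) := by push_cast at hj ⊢; omega
      rw [hj']
      refine (wrong_down hiso.2.iso hM (by omega)).trans ?_
      rw [hdual, hd1, ← hd2]
      omega

end Model

end Pool.Agent.R942.WR
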