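import Pool.Agent.R942.WB.Defs
import Pool.Agent.R942.WD.Defs

/-!
# The transcendental part of `H^2` of the strata: definitions
-/

set_option autoImplicit false

namespace Pool.Agent.R942.WR

open Module Pool.Agent.Y143 Pool.Agent.R942.WB

universe u v

/-- The difference `b_2 - ρ` for the stratum `Y^(a+1)`: the dimension of `H^2(Y^(a+1))` minus the
dimension of the space spanned by the classes of divisors. -/
noncomputable def transRank {Ω : Type u} [Field Ω] [CharZero Ω] {Γ : Type} {n q : ℕ}
    {X : SpecialFibre.{u, v} Ω Γ n q} (A : DivisorClasses X) (a : ℕ) : ℕ :=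
  finrank Ω (X.gr a 2) - finrank Ω (Submodule.span Ω (A.A1 a : Set (X.H a)))

/-- At most `K` eigenvalues (with multiplicities) of `F` on the graded piece `gr_s` of the monodromy
filtration of `N` are not `q`-Weil numbers of weight `m + s`. -/
def AtMost {Ω : Type u} [Field Ω] [CharZero Ω] {V : Type v} [AddCommGroup V] [Module Ω V] (q : ℕ)
    (F N : Module.End Ω V) (m s : ℤ) (K : ℕ) : Prop :=
  ∀ M : ℤ → Submodule Ω V, IsMonodromyFiltration N M → wrongNumber q F M s (m + s) ≤ K

end Pool.Agent.R942.WR
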