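import Pool.Agent.R942.WR.Rho
import Pool.Agent.R942.WR.Defs
import Pool.Agent.R942.WB.Final
import Pool.Agent.R942.WD.Main

/-!
# The number of wrong eigenvalues and the transcendental part of `H^2`
-/

set_option autoImplicit false

namespace Pool.Agent.R942.WR

open Module Submodule Pool.Agent.Y143 Pool.Agent.R942.WM Pool.Agent.R942.WS Pool.Agent.R942.WB
  Pool.Agent.R942.WD

universe u v

section Model

variable {Ω : Type u} [Field Ω] [CharZero Ω] [IsAlgClosed Ω] {Γ : Type} {n q : ℕ}

omit [IsAlgClosed Ω] in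
lemma kap_le' {X : SpecialFibre.{u, v} Ω Γ n q} (A : DivisorClasses X) {m : ℕ} (hm : 3 ≤ m)
    (hmn : m ≤ n) : kap X.diff X.tot ((m - 2 : ℕ) : ℤ) ((m : ℤ) - n) ≤ transRank A (m - 3) := by
  obtain ⟨a, rfl⟩ : ∃ a, m = a + 3 := ⟨m - 3, by omega⟩
  obtain ⟨e, he⟩ : ∃ e, n = a + 3 + e := ⟨n - (a + 3), by omega⟩
  have h1 := kap_le A he
  unfold transRank
  rw [show a + 3 - 2 = a + 1 by omega, show a + 3 - 3 = a by omega]
  omega

/-- The bounds in the degree `n`, without the hard Lefschetz theorem for the generic fibre. -/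
theorem bound_middle {X : SemistableModel.{u, v} Ω Γ n q} (A : DivisorClasses X.toSpecialFibre)
    (hn : 3 ≤ n) (j : ℤ) (hj : |j| = (n : ℤ) - 3) :
    WrongAtMost X n j (2 * transRank A (n - 3)) := by
  have hiso := (main_two A (show 2 ≤ n by omega) le_rfl (Or.inl rfl)).1.iso
  have h1 := kap_le' A hn le_rfl
  have h2 : cok X.diff X.tot ((n - 2 : ℕ) : ℤ) ((n : ℤ) - n) =
      kap X.diff X.tot ((n - 2 : ℕ) : ℤ) ((n : ℤ) - n) := by
    rw [cok_dual _ (by omega)]
    congr 1
    ring
  intro M hM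
  rcases abs_choice j with h | h
  · have hj' : j = ((n - 2 : ℕ) : ℤ) - 1 := by omega
    rw [hj']
    refine (wrong_up hiso hM (by omega)).trans ?_
    rw [h2]
    push_cast
    omega
  · have hj' : j = 1 - ((n - 2 : ℕ) : ℤ) := by omega
    rw [hj']
    refine (wrong_down hiso hM (by omega)).trans ?_
    rw [h2]
    push_cast
    omega

/-- The bounds for all degrees. -/
theorem bound_all {X : Degeneration.{u, v} Ω Γ n q} (A : DivisorClasses X.toSpecialFibre)
    {m : ℕ} (hm : 3 ≤ m) (hmn : m ≤ n) (j : ℤ) (hj : |j| = (m : ℤ) - 3) :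
    WrongAtMost X.toSemistableModel m j (2 * transRank A (m - 3)) ∧
      WrongAtMost X.toSemistableModel (2 * n - m) j (2 * transRank A (m - 3)) := by
  have hpure := pure_beyond X A (goodUpTo_one A) hmn
  rw [show m - 1 - 1 = m - 2 by omega] at hpure
  have h1 := kap_le' A hm hmn
  have hcast : (m : ℤ) - n = -((n - m : ℕ) : ℤ) := by omega
  have hcast2 : (((2 * n - m : ℕ) : ℤ)) - n = ((n - m : ℕ) : ℤ) := by omega
  have hcok1 := cok_eq_kap X.lefDual X.lefComplex ((m - 2 : ℕ) : ℤ) (by omega)
    (-((n - m : ℕ) : ℤ))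
  have hcok2 := cok_eq_kap X.lefDual X.lefComplex ((m - 2 : ℕ) : ℤ) (by omega)
    ((n - m : ℕ) : ℤ)
  have hka := kap_abs X.lefComplex ((m - 2 : ℕ) : ℤ) (by omega) ((n - m : ℕ) : ℤ)
  constructor
  · intro M hM
    refine wrong_both (by omega) hpure.1.iso ?_ hM j (by omega)
    rw [hcast, hcok1]
    rw [hcast] at h1
    push_cast
    omega
  · intro M hM
    refine wrong_both (by omega) hpure.2.iso ?_ hM j (by omega)
    rw [hcast2, hcok2, ← hka]
    rw [hcast] at h1
    push_cast
    omega

end Model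

section Summand

variable {Ω : Type u} [Field Ω] [CharZero Ω] {V V' : Type v} [AddCommGroup V] [Module Ω V]
  [AddCommGroup V'] [Module Ω V']

omit [CharZero Ω] in
lemma map_maxGen {F : Module.End Ω V} {F' : Module.End Ω V'} (f : V →ₗ[Ω] V')
    (hf : ∀ x, F' (f x) = f (F x)) {α : Ω} {x : V} (hx : x ∈ F.maxGenEigenspace α) :
    f x ∈ F'.maxGenEigenspace α := by
  rw [Module.End.mem_maxGenEigenspace] at hx ⊢
  obtain ⟨k, hk⟩ := hx
  refine ⟨k, ?_⟩
  have h1 : ∀ (k : ℕ) (y : V), ((F' - α • (1 : Module.End Ω V')) ^ k) (f y) =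
      f (((F - α • (1 : Module.End Ω V)) ^ k) y) := by
    intro k
    induction k with
    | zero => intro y; rfl
    | succ k ih =>
      intro y
      rw [pow_succ, pow_succ, Module.End.mul_apply, Module.End.mul_apply]
      have : (F' - α • (1 : Module.End Ω V')) (f y) = f ((F - α • (1 : Module.End Ω V)) y) := by
        simp [hf]
      rw [this, ih]
  rw [h1, hk, map_zero]

lemma map_wrongSpace {q : ℕ} {w : ℤ} {F : Module.End Ω V} {F' : Module.End Ω V'} (f : V →ₗ[Ω] V')
    (hf : ∀ x, F' (f x) = f (F x)) {x : V} (hx : x ∈ wrongSpace q F w) :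
    f x ∈ wrongSpace q F' w := by
  have h1 : wrongSpace q F w ≤ (wrongSpace q F' w).comap f := by
    apply iSup₂_le
    intro α hα y hy
    exact Submodule.mem_iSup_of_mem α (Submodule.mem_iSup_of_mem hα (map_maxGen f hf hy))
  exact h1 hx

/-- The number of wrong eigenvalues does not increase if one passes to a direct summand. -/
lemma atMost_summand {q e : ℕ} {F N : Module.End Ω V} {F' N' : Module.End Ω V'}
    [FiniteDimensional Ω V'] {pull : V →ₗ[Ω] V'} {push : V' →ₗ[Ω] V}
    (hS : IsSummand e F N F' N' pull push) (hN' : ∃ r : ℕ, N' ^ r = 0) {m s : ℤ} {K : ℕ}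
    (h : AtMost q F' N' m s K) : AtMost q F N m s K := by
  have hinj : Function.Injective pull := fun x y hxy => by
    rw [← hS.push_pull x, hxy, hS.push_pull]
  have hfin : FiniteDimensional Ω V := Module.Finite.of_injective pull hinj
  intro M hM
  have hM' := isMonodromyFiltration_monFil hN'
  have he : (e : Ω) ≠ 0 := Nat.cast_ne_zero.2 hS.e_pos.ne'
  have hpull : ∀ (s : ℤ) (x : V), x ∈ M s → pull x ∈ monFil N' s :=
    fun s x hx => IsMonodromyFiltrationOn.functorial hM.on hM'.on pull
      (fun _ _ => Submodule.mem_top) he (fun x _ => hS.N_pull x) s hx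
  have hpush : ∀ (s : ℤ) (x : V'), x ∈ monFil N' s → push x ∈ M s :=
    fun s x hx => IsMonodromyFiltrationOn.functorial hM'.on hM.on push
      (fun _ _ => Submodule.mem_top) (inv_ne_zero he) (fun x _ => by
        rw [hS.push_N, smul_smul, inv_mul_cancel₀ he, one_smul]) s hx
  refine le_trans ?_ (h _ hM')
  unfold wrongNumber
  refine finrank_rel (LinearMap.graph pull) (inf_le_inf_right _ (hM.mono (by omega)))
    (inf_le_inf_right _ (hM'.mono (by omega))) (fun v hv => ⟨pull v, ⟨?_, ?_⟩, ?_⟩)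
    (fun v x hv hx hvx hx0 => ?_)
  · exact hpull s v hv.1
  · exact map_wrongSpace pull hS.frob_pull hv.2
  · rw [LinearMap.mem_graph_iff]
  · rw [LinearMap.mem_graph_iff] at hvx
    have hvx' : x = pull v := hvx
    refine ⟨?_, hv.2⟩
    have := hpush _ _ hx0.1
    rwa [hvx', hS.push_pull] at this

end Summand

section Variety

variable {Ω : Type u} [Field Ω] [CharZero Ω] {W : Type} [Group W]
  {deg : W →* Multiplicative ℤ} {n q : ℕ} {X : ProperVariety.{u, v} Ω W deg n q}

/-- The transfer of a bound from the semistable alteration to the variety. -/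
theorem atMost_of (A : Alteration X) {m : ℕ} {s : ℤ} {K : ℕ}
    (h : WrongAtMost A.model.toSemistableModel m s K) :
    AtMost (q ^ A.f) (X.act m A.φ) (X.N m) m s K := by
  obtain ⟨pull, push, hS⟩ := A.summand m
  have := finite_V A.model.toSemistableModel m
  exact atMost_summand hS (N_nilpotent A.model.toSemistableModel m) h

end Variety

end Pool.Agent.R942.WR
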