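import Pool.Agent.R942.WR.PartDefs
import Pool.Agent.R942.WB.Final

/-!
# The bound for a general condition on the characters
-/

set_option autoImplicit false

namespace Pool.Agent.R942.WR

open Module Submodule Pool.Agent.Y143 Pool.Agent.Y143.LefDual Pool.Agent.R942.WM
  Pool.Agent.R942.WS Pool.Agent.R942.WB

universe u v

variable {Ω : Type u} [Field Ω] [CharZero Ω] {Γ : Type} {n q : ℕ}

lemma dualChr_eq (X : SpecialFibre.{u, v} Ω Γ n q) (w : ℕ) (χ : Γ → Ω) :
    dualChr X w χ = dualC X w χ := rfl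

lemma violates_dual {X : SpecialFibre.{u, v} Ω Γ n q} {C : ℕ → (Γ → Ω) → Prop} {i w : ℕ}
    {χ : Γ → Ω} (h : Violates X C i w (dualC X w χ)) : Violates X C i w χ := by
  obtain ⟨i', h1, h2, h3⟩ := h
  refine ⟨i', h1, h2, ?_⟩
  rw [dualChr_eq, dualC_dualC] at h3
  exact h3.symm

variable [IsAlgClosed Ω]

/-- The form is perfect on the bad part. -/
lemma perf_violPart {X : Degeneration.{u, v} Ω Γ n q} {C : ℕ → (Γ → Ω) → Prop}
    {i m w : ℕ} (h : i + w + m = n) :
    Perf (frm X.psi X.lefC m) (violPart X.toSpecialFibre C i w)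
      (violPart X.toSpecialFibre C i w) := by
  have hP := perf_prim X.lefDual X.lefComplex (i : ℤ) m
  rw [pr_eq h] at hP
  have hle : violPart X.toSpecialFibre C i w ≤ X.primitive (i : ℤ) (w : ℤ) :=
    iSup₂_le fun χ _ => inf_le_left
  have horth : ∀ μ ν : Γ → Ω, μ ≠ dualC X.toSpecialFibre w ν → ∀ x ∈ X.primPart i w μ,
      ∀ y ∈ X.primPart i w ν, frm X.psi X.lefC m x y = 0 := by
    intro μ ν hne x hx y hy
    exact orth_Wt (A := X.primitive (i : ℤ) (w : ℤ)) (A' := X.primitive (i : ℤ) (w : ℤ))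
      (T := X.actC i) (T' := X.actC i) (κ := fun g => X.cyc' g ^ w)
      (fun g x hx => stab_prim h g hx) (fun g x hx => stab_prim h g hx)
      (fun g x hx y hy => by
        rw [← pr_eq h] at hx
        exact frm_inv h g hx.1 y) hne hx.1 hy.1 hx.2 hy.2
  constructor
  · intro x hx h0
    apply hP.left x (hle hx)
    intro y hy
    suffices hh : y ∈ X.primitive (i : ℤ) (w : ℤ) ⊓ LinearMap.ker (frm X.psi X.lefC m x) from hh.2
    apply mem_of_prj_mem (X.sym.comm i)
    intro ν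
    have hy' : prj (X.actC i) (X.sym.comm i) ν y ∈ X.primitive (i : ℤ) (w : ℤ) :=
      prj_stable (X.sym.comm i) (fun g y hy => stab_prim h g hy) ν hy
    have hy2 : prj (X.actC i) (X.sym.comm i) ν y ∈ X.primPart i w ν := ⟨hy', prj_mem _ _ _⟩
    refine ⟨hy', ?_⟩
    rw [SetLike.mem_coe, LinearMap.mem_ker]
    by_cases hb : Violates X.toSpecialFibre C i w ν
    · exact h0 _ (Submodule.mem_iSup_of_mem ν (Submodule.mem_iSup_of_mem hb hy2))
    · have hx2 : x ∈ ⨆ χ ∈ {χ : Γ → Ω | Violates X.toSpecialFibre C i w χ}, X.primPart i w χ := hx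
      have hle2 : (⨆ χ ∈ {χ : Γ → Ω | Violates X.toSpecialFibre C i w χ}, X.primPart i w χ) ≤
          LinearMap.ker ((frm X.psi X.lefC m).flip (prj (X.actC i) (X.sym.comm i) ν y)) := by
        apply iSup₂_le
        intro μ hμ z hz
        rw [LinearMap.mem_ker, LinearMap.flip_apply]
        apply horth μ ν _ z hz _ hy2
        rintro rfl
        exact hb (violates_dual hμ)
      exact hle2 hx2
  · intro y hy h0
    apply hP.right y (hle hy)
    intro x hx
    suffices hh : x ∈ X.primitive (i : ℤ) (w : ℤ) ⊓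
      LinearMap.ker ((frm X.psi X.lefC m).flip y) from hh.2
    apply mem_of_prj_mem (X.sym.comm i)
    intro μ
    have hx' : prj (X.actC i) (X.sym.comm i) μ x ∈ X.primitive (i : ℤ) (w : ℤ) :=
      prj_stable (X.sym.comm i) (fun g y hy => stab_prim h g hy) μ hx
    have hx2 : prj (X.actC i) (X.sym.comm i) μ x ∈ X.primPart i w μ := ⟨hx', prj_mem _ _ _⟩
    refine ⟨hx', ?_⟩
    rw [SetLike.mem_coe, LinearMap.mem_ker, LinearMap.flip_apply]
    by_cases hb : Violates X.toSpecialFibre C i w μ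
    · exact h0 _ (Submodule.mem_iSup_of_mem μ (Submodule.mem_iSup_of_mem hb hx2))
    · have hy2 : y ∈ ⨆ χ ∈ {χ : Γ → Ω | Violates X.toSpecialFibre C i w χ}, X.primPart i w χ := hy
      have hle2 : (⨆ χ ∈ {χ : Γ → Ω | Violates X.toSpecialFibre C i w χ}, X.primPart i w χ) ≤
          LinearMap.ker (frm X.psi X.lefC m (prj (X.actC i) (X.sym.comm i) μ x)) := by
        apply iSup₂_le
        intro ν hν z hz
        rw [LinearMap.mem_ker]
        apply horth μ ν _ _ hx2 z hz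
        rintro rfl
        apply hb
        apply violates_dual
        rw [dualC_dualC]
        exact hν
      exact hle2 hy2

variable {X : Degeneration.{u, v} Ω Γ n q} (A : DivisorClasses X.toSpecialFibre)

/-- The place `(i, m)` in the class of `χ`. -/
lemma fine_good {i w m : ℕ} (hi : 1 ≤ i) (hw : 2 ≤ w) (hn : i + w + m = n) (χ : Γ → Ω) (p : ℤ)
    (h : Good A i w (chr X.cyc' χ n p i (-m))) : Fine X.diff X.lefC (X.cls χ p) i m := by
  obtain ⟨a, rfl⟩ : ∃ a : ℕ, i = a + 1 := ⟨i - 1, by omega⟩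
  rcases h with h | ⟨h1, h2, h3⟩
  · apply fine_of_simple X.sym X.lefComplex
    have e1 : Pr X.lefC (Cl X.tot X.actC X.cyc' χ n p) ((a + 1 : ℕ) : ℤ) m =
        X.primPart ((a + 1 : ℕ) : ℤ) (w : ℤ)
          (chr X.cyc' χ n p ((a + 1 : ℕ) : ℤ) (-m)) := by
      unfold Pr Cl SpecialFibre.primPart SpecialFibre.primitive kerPow SpecialFibre.tot
      rw [show ((n : ℤ) + 1 - ((a + 1 : ℕ) : ℤ) - (w : ℤ)).toNat = m + 1 by omega,
        show (n : ℤ) + -m - ((a + 1 : ℕ) : ℤ) = w by omega, inf_right_comm]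
    have e2 : Bd X.diff X.tot ((a + 1 : ℕ) : ℤ) (-m) =
        X.coboundaries ((a + 1 : ℕ) : ℤ) (w : ℤ) := by
      rw [X.bd_eq, show (n : ℤ) + -m - ((a + 1 : ℕ) : ℤ) = w by omega]
    rw [e1, e2]
    exact h
  · left
    subst h1
    obtain ⟨e, he⟩ : ∃ e, n = a + 3 + e := ⟨m, by omega⟩
    have e3 : -(m : ℤ) = ((a + 3 : ℕ) : ℤ) - n := by omega
    rw [e3] at h2 ⊢
    exact nInj_tate A he (by simpa using h3) χ p h2

variable {C : ℕ → (Γ → Ω) → Prop}

/-- `N ^ i` is injective on the classes which do not violate the condition. -/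
lemma nInj_class' {W i m : ℕ} (hW : GoodUpTo A W) (hW1 : 1 ≤ W) (hi : 1 ≤ i)
    (hn : i + (W + 1) + m = n)
    (hC : ∀ i', 1 ≤ i' → i' ≤ i → ∀ χ, C i' χ → Good A i' (W + 1) χ) (χ : Γ → Ω)
    (hχ : ¬ Violates X.toSpecialFibre C i (W + 1) (chr X.cyc' χ n 0 i (-m))) :
    NInj X.diff (X.cls χ 0) i (-m) := by
  have hone : ∀ i' : ℕ, 1 ≤ i' → i' ≤ i → Good A i' (W + 1) (chr X.cyc' χ n 0 i (-m)) ∧
      Good A i' (W + 1) (dualC X.toSpecialFibre (W + 1) (chr X.cyc' χ n 0 i (-m))) := by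
    intro i' h1 h2
    constructor
    · apply hC i' h1 h2
      by_contra h3
      exact hχ ⟨i', h1, h2, Or.inl h3⟩
    · apply hC i' h1 h2
      by_contra h3
      exact hχ ⟨i', h1, h2, Or.inr h3⟩
  have hcast : (n : ℤ) + -m - i = ((W + 1 : ℕ) : ℤ) := by push_cast; omega
  refine (main_upto (D := -(m : ℤ) - i) (I := i) (X.cls_dual 0 χ) (X.cls_lefComplex χ 0)
    (X.cls_lefComplex (X.dualChar χ) (1 - 0)) (fun i' j' hd => ?_) (fun i' h1 h2 m' hm' => ?_)
    (i : ℤ) (-m) rfl le_rfl).good (by omega) |>.inj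
  · exact diag_low A hW χ i' j' (by omega)
  · obtain ⟨k, rfl⟩ := Int.eq_ofNat_of_zero_le (show 0 ≤ i' by omega)
    have hcast' : (n : ℤ) + -m' - k = ((W + 1 : ℕ) : ℤ) := by push_cast; omega
    have h3 := hone k (by omega) (by omega)
    constructor
    · apply fine_good A (w := W + 1) (by omega) (by omega) (by omega) χ 0
      rw [chr_same χ hcast hcast']
      exact h3.1
    · apply fine_good A (w := W + 1) (by omega) (by omega) (by omega) (X.dualChar χ) (1 - 0)
      rw [chr_dual χ hcast hcast']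
      exact h3.2

/-- The kernel of `N ^ i` is represented by the primitive elements of the bad characters. -/
lemma ker_le' {W i m : ℕ} (hW : GoodUpTo A W) (hW1 : 1 ≤ W) (hi : 1 ≤ i)
    (hn : i + (W + 1) + m = n)
    (hC : ∀ i', 1 ≤ i' → i' ≤ i → ∀ χ, C i' χ → Good A i' (W + 1) χ) :
    Zc X.diff X.tot (-i) (-m) ⊓ Bd X.diff X.tot i (-m) ≤
      Bd X.diff X.tot (-i) (-m) ⊔
        (Zp X.diff X.lefC X.tot i m ⊓ violPart X.toSpecialFibre C i (W + 1)) := by
  intro x hx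
  apply mem_of_prj_mem (X.sym.comm (-i))
  intro μ
  obtain ⟨χ, rfl⟩ := exists_chr X.sym.cne n 0 (-i) (-m) μ
  have hy1 := X.sym.prj_zc χ n 0 hx.1
  have hy2 := X.sym.prj_bd χ n 0 hx.2
  rw [← prj_neg X.sym] at hy2
  set y := prj (X.actC (-i)) (X.sym.comm (-i)) (chr X.cyc' χ n 0 (-i) (-m)) x
  by_cases hb : Violates X.toSpecialFibre C i (W + 1) (chr X.cyc' χ n 0 i (-m))
  · have hI : NInj X.diff (X.cls χ 0) i ((m : ℤ) + 2) := by
      have h1 := (diag_low A hW χ i (-((m + 2 : ℕ) : ℤ)) (by push_cast; omega)).good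
        (by omega) |>.inj
      have h2 := (X.cls_lefComplex χ 0).nInj_pos i (by omega) (m + 2) h1
      rwa [show ((m + 2 : ℕ) : ℤ) = (m : ℤ) + 2 by push_cast; ring] at h2
    obtain ⟨z, hz, hz'⟩ := (X.cls_lefComplex χ 0).lred' i (by omega) m hI ⟨hy1, hy2⟩
    refine Submodule.mem_sup.2 ⟨z, Sym.bd_cl_le χ n 0 _ _ hz, y - z, ?_, by abel⟩
    refine ⟨⟨⟨Sym.zc_cl_le χ n 0 _ _ hz'.1.1, Sym.bd_cl_le χ n 0 _ _ hz'.1.2⟩, hz'.2⟩, ?_⟩
    refine Submodule.mem_iSup_of_mem (chr X.cyc' χ n 0 i (-m)) (Submodule.mem_iSup_of_mem hb ?_)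
    have h3 : y - z ∈ Cl X.tot X.actC X.cyc' χ n 0 i (-m) :=
      (X.cls_lefComplex χ 0).bd_le_G i _ hz'.1.2
    refine ⟨?_, h3.2⟩
    rw [← pr_eq (X := X.toSpecialFibre) hn]
    exact ⟨h3.1, hz'.2⟩
  · have h1 := nInj_class' A hW hW1 hi hn hC χ hb ⟨hy1, hy2⟩
    exact Submodule.mem_sup_left (Sym.bd_cl_le χ n 0 _ _ h1)

/-- The kernel of `N ^ i` has at most half of the dimension of the bad part. -/
theorem two_kap_le' {W i m : ℕ} (hW : GoodUpTo A W) (hW1 : 1 ≤ W) (hi : 1 ≤ i)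
    (hn : i + (W + 1) + m = n)
    (hC : ∀ i', 1 ≤ i' → i' ≤ i → ∀ χ, C i' χ → Good A i' (W + 1) χ) :
    2 * kap X.diff X.tot i (-m) ≤ violDim X.toSpecialFibre C i (W + 1) := by
  have h1 := Submodule.finrank_mono (ker_le' A hW hW1 hi hn hC)
  have h2 := Submodule.finrank_add_le_finrank_add_finrank (Bd X.diff X.tot (-i) (-m))
    (Zp X.diff X.lefC X.tot i m ⊓ violPart X.toSpecialFibre C i (W + 1))
  have h3 := two_finrank_le (perf_violPart (X := X) (C := C) hn)
    (Z := Zp X.diff X.lefC X.tot i m ⊓ violPart X.toSpecialFibre C i (W + 1)) inf_le_right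
    (fun x hx y hy => X.lefDual.isotropy X.lefComplex X.lefComplex i m hx.1.1.1 hy.1.1.2)
  unfold kap violDim
  omega

/-- The bound for a general condition on the characters. -/
theorem bound_cond {W : ℕ} (hW1 : 1 ≤ W) (hW : GoodUpTo A W) {m : ℕ} (hm : W + 2 ≤ m)
    (hmn : m ≤ n) (hC : ∀ i', 1 ≤ i' → i' ≤ m - W - 1 → ∀ χ, C i' χ → Good A i' (W + 1) χ)
    (j : ℤ) (hj : |j| = (m : ℤ) - W - 2) :
    WrongAtMost X.toSemistableModel m j
      (2 * (violDim X.toSpecialFibre C (m - W - 1) (W + 1) / 2)) ∧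
    WrongAtMost X.toSemistableModel (2 * n - m) j
      (2 * (violDim X.toSpecialFibre C (m - W - 1) (W + 1) / 2)) := by
  set i := m - W - 1 with hi
  have hi1 : 1 ≤ i := by omega
  have hpl : i + (W + 1) + (n - m) = n := by omega
  have hkap := two_kap_le' A hW hW1 hi1 hpl hC
  have hpure := pure_beyond X A hW hmn
  have hcast : (m : ℤ) - n = -((n - m : ℕ) : ℤ) := by omega
  have hcast2 : (((2 * n - m : ℕ) : ℤ)) - n = ((n - m : ℕ) : ℤ) := by omega
  have hcok1 := cok_eq_kap X.lefDual X.lefComplex (i : ℤ) (by omega) (-((n - m : ℕ) : ℤ))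
  have hcok2 := cok_eq_kap X.lefDual X.lefComplex (i : ℤ) (by omega) ((n - m : ℕ) : ℤ)
  have hka := kap_abs X.lefComplex (i : ℤ) (by omega) ((n - m : ℕ) : ℤ)
  constructor
  · intro M hM
    refine wrong_both hi1 hpure.1.iso ?_ hM j (by omega)
    rw [hcast, hcok1]
    omega
  · intro M hM
    refine wrong_both hi1 hpure.2.iso ?_ hM j (by omega)
    rw [hcast2, hcok2, ← hka]
    omega

end Pool.Agent.R942.WR
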