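import Pool.Agent.R942.WR.CrystalDefs
import Pool.Agent.R942.WR.Part
import Pool.Agent.R942.WR.Main
import Pool.Agent.R942.WP.Cond
import Pool.Agent.R942.WQ.Main

/-!
# The bounds for the `p`-adic cohomology
-/

set_option autoImplicit false

namespace Pool.Agent.R942.WR

open Module Pool.Agent.Y143 Pool.Agent.R942.WS Pool.Agent.R942.WM Pool.Agent.R942.WB
  Pool.Agent.R942.WP Pool.Agent.R942.WD Pool.Agent.R942.WQ

universe u v

section

variable {Ω : Type u} [Field Ω] [CharZero Ω] [IsAlgClosed Ω] {Γ : Type} {n q : ℕ}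

lemma good_of_crystal {X : SpecialFibre.{u, v} Ω Γ n q}
    (A : DivisorClasses X) {p f : ℕ} [NeZero p] (E : Crystals X.toStrataData p f) {val : Ω → ℚ}
    (hval : IsValuation E.K₀ E.σ val) (hq : q = p ^ f) (hf : 0 < f) {w i : ℕ} {χ : Γ → Ω}
    (h : CrystalGood A E.toCrystalData p f val w i χ) : Good A i w χ := by
  rcases h with h1 | h1 | h1
  · exact h1
  · obtain ⟨S, ⟨h2, h3⟩, h4⟩ := h1
    exact Or.inl (simpleAt_of_inSimple E ⟨S, ⟨(isSub_iff _ _ _ _ _).1 h2, fun S' hS' hS'' =>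
      h3 S' hS' ((isSub_iff _ _ _ _ _).2 hS'')⟩, h4⟩)
  · obtain ⟨S, lam, h2, h3, h4, h5⟩ := h1
    exact Or.inl (simpleAt_of_inSlope E hval hq hf
      ⟨S, lam, (isSub_iff _ _ _ _ _).1 h2, h3, h4, h5⟩)

/-- The bound for the isocrystals. -/
theorem bound_crystal {X : Degeneration.{u, v} Ω Γ n q} (A : DivisorClasses X.toSpecialFibre)
    {p f : ℕ} [NeZero p] (E : Crystals X.toStrataData p f) {val : Ω → ℚ}
    (hval : IsValuation E.K₀ E.σ val) (hq : q = p ^ f) (hf : 0 < f) {W : ℕ} (hW1 : 1 ≤ W)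
    (hW : CrystalGoodUpTo A E.toCrystalData p f val W) {m : ℕ} (hm : W + 2 ≤ m)
    (hmn : m ≤ n) (j : ℤ) (hj : |j| = (m : ℤ) - W - 2) :
    WrongAtMost X.toSemistableModel m j
      (2 * (violDim X.toSpecialFibre (CrystalGood A E.toCrystalData p f val (W + 1))
        (m - W - 1) (W + 1) / 2)) ∧
    WrongAtMost X.toSemistableModel (2 * n - m) j
      (2 * (violDim X.toSpecialFibre (CrystalGood A E.toCrystalData p f val (W + 1))
        (m - W - 1) (W + 1) / 2)) :=
  bound_cond A hW1 (goodUpTo_of_crystal A E hval hq hf hW) hm hmn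
    (fun _ _ _ _ h => good_of_crystal A E hval hq hf h) j hj

end

section Base

variable {P₀ : Type u} [Field P₀] {W : Type} [Group W] (Ω : Type u) [Field Ω] [CharZero Ω]
  [Algebra P₀ Ω] {X : PstVariety P₀ W} {A : ∀ m, W → Module.End P₀ (X.D m)}
  {deg : W →* Multiplicative ℤ} {p h n : ℕ} {σ : RingAut P₀} {τ : W →* RingAut P₀}

/-- The transfer of a bound from the semistable alteration. -/
theorem pst_atMost (hp : p ≠ 0) (hX : X.IsPst p h deg σ τ A)
    (B : PstAlteration Ω X A deg n (p ^ h)) {m : ℕ} {s : ℤ} {K : ℕ}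
    (hb : WrongAtMost B.model.toSemistableModel m s K) :
    AtMost ((p ^ h) ^ B.f) (PstVariety.actV Ω A m B.φ) (X.NV Ω m) m s K :=
  atMost_of (toAlteration Ω hp hX B) hb

end Base

end Pool.Agent.R942.WR
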