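import Pool.Agent.R942.WR.PartDefs
import Pool.Agent.R942.WP.Defs

/-!
# The condition on the isocrystals, for one character
-/

set_option autoImplicit false

namespace Pool.Agent.R942.WR

open Module Pool.Agent.Y143 Pool.Agent.R942.WS Pool.Agent.R942.WP

universe u v

variable {Ω : Type u} [Field Ω] [CharZero Ω] {Γ : Type} {n q : ℕ}

/-- The character `χ` at the place `(i, w)` is simple, or Tate in the weight `2` on a stratum with the
Tate conjecture for divisors (`Good`); or it is contained in a simple isocrystal; or it is contained
in an isocrystal of some slope whose dimension is at most the denominator of the slope. -/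
def CrystalGood {X : SpecialFibre.{u, v} Ω Γ n q} (A : DivisorClasses X)
    (E : CrystalData X.toStrataData) (p f : ℕ) (val : Ω → ℚ) (w i : ℕ) (χ : Γ → Ω) : Prop :=
  Good A i w χ ∨
    InSimple E.K₀ (E.phi p i) (primitiveCrystal E i w) (X.primPart i w χ) ∨
    InSlope E.K₀ (E.phi p i) (primitiveCrystal E i w) f val (X.actC i X.frob) (X.primPart i w χ)

end Pool.Agent.R942.WR
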