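import Pool.Agent.R942.WR.Defs
import Pool.Agent.R942.WQ.Defs

/-!
# The number of wrong eigenvalues for the potentially semistable cohomology: definition
-/

set_option autoImplicit false

namespace Pool.Agent.R942.WR

open Module Pool.Agent.Y143 Pool.Agent.R942.WD Pool.Agent.R942.WQ

universe u

variable {P₀ : Type u} [Field P₀] {W : Type} [Group W] {Ω : Type u} [Field Ω] [CharZero Ω]
  [Algebra P₀ Ω]

/-- At most `K` eigenvalues (with multiplicities) of the linear action of the Frobenius lift `φ` of the
extension `K'` (with residue field with `q ^ f` elements) on the graded piece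
`gr^N_s H^m_{pst, p}(X)` are not `q ^ f`-Weil numbers of weight `m + s`. -/
def PstAtMost {X : PstVariety P₀ W} {A : ∀ m, W → Module.End P₀ (X.D m)}
    {deg : W →* Multiplicative ℤ} {n q : ℕ} (B : PstAlteration Ω X A deg n q) (m : ℕ) (s : ℤ)
    (K : ℕ) : Prop :=
  AtMost (q ^ B.f) (PstVariety.actV Ω A m B.φ) (X.NV Ω m) m s K

end Pool.Agent.R942.WR
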