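import Pool.Agent.R942.WS.Defs
import Pool.Agent.R942.WR.PstDefs

/-!
# The part of the primitive part given by the characters which are not good: definitions
-/

set_option autoImplicit false

namespace Pool.Agent.R942.WR

open Module Pool.Agent.Y143 Pool.Agent.R942.WS Pool.Agent.R942.WQ

universe u v

section Generic

variable {Ω : Type u} [Field Ω] {V : Type v} [AddCommGroup V] [Module Ω V] {Γ : Type}

/-- The dimension of the sum of the subspaces `P χ` for the `χ` with the property `Bad`. -/
noncomputable def sumDim (P : (Γ → Ω) → Submodule Ω V) (Bad : (Γ → Ω) → Prop) : ℕ :=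
  finrank Ω (⨆ χ ∈ {χ : Γ → Ω | Bad χ}, P χ : Submodule Ω V)

/-- The dual of the character `χ` in the weight `w`. -/
def dualOf (c : Γ → Ωˣ) (tr : Γ → Γ) (w : ℕ) (χ : Γ → Ω) : Γ → Ω :=
  fun g => (c g : Ω) ^ w * χ (tr g)

/-- At one of the places `i'` with `1 ≤ i' ≤ i`, the character `χ` or its dual `D χ` violates the
condition `C`. -/
def Fails (C : ℕ → (Γ → Ω) → Prop) (D : (Γ → Ω) → Γ → Ω) (i : ℕ) (χ : Γ → Ω) : Prop :=
  ∃ i', 1 ≤ i' ∧ i' ≤ i ∧ (¬ C i' χ ∨ ¬ C i' (D χ))

end Generic

variable {Ω : Type u} [Field Ω] [CharZero Ω]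

/-- The dimension of the part of the primitive part of `E_1^(i, w)` given by the characters which are
not good (`Good`), or whose dual is not good, at one of the places `(i', w)` with `1 ≤ i' ≤ i`. -/
noncomputable def goodDefect {Γ : Type} {n q : ℕ} {X : SpecialFibre.{u, v} Ω Γ n q}
    (A : DivisorClasses X) (w i : ℕ) : ℕ :=
  sumDim (X.primPart i w) (Fails (fun i χ => Good A i w χ) (dualOf X.cyc X.tr w) i)

/-- In the degrees `m` and `2 n - m`, at most `K` eigenvalues of the Frobenius lift on `gr^N_s` are not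
of the predicted weight (`PstAtMost`). -/
def PstBoth {P₀ : Type u} [Field P₀] {W : Type} [Group W] [Algebra P₀ Ω] {X : PstVariety P₀ W}
    {A : ∀ m, W → Module.End P₀ (X.D m)} {deg : W →* Multiplicative ℤ} {n q : ℕ}
    (B : PstAlteration Ω X A deg n q) (m : ℕ) (s : ℤ) (K : ℕ) : Prop :=
  PstAtMost B m s K ∧ PstAtMost B (2 * n - m) s K

end Pool.Agent.R942.WR
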