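import Pool.Agent.R942.WB.Defs

/-!
# The part of the primitive part given by a condition on the characters: definitions
-/

set_option autoImplicit false

namespace Pool.Agent.R942.WR

open Module Pool.Agent.Y143 Pool.Agent.R942.WS

universe u v

variable {Ω : Type u} [Field Ω] [CharZero Ω] {Γ : Type} {n q : ℕ}

/-- The dual of the character `χ` in the weight `w`. -/
def dualChr (X : SpecialFibre.{u, v} Ω Γ n q) (w : ℕ) (χ : Γ → Ω) : Γ → Ω :=
  fun g => (X.cyc g : Ω) ^ w * χ (X.tr g)

/-- At one of the places `(i', w)` with `1 ≤ i' ≤ i`, the character `χ` or its dual violates the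
condition `C`. -/
def Violates (X : SpecialFibre.{u, v} Ω Γ n q) (C : ℕ → (Γ → Ω) → Prop) (i w : ℕ) (χ : Γ → Ω) :
    Prop :=
  ∃ i', 1 ≤ i' ∧ i' ≤ i ∧ (¬ C i' χ ∨ ¬ C i' (dualChr X w χ))

/-- The sum of the parts of the primitive part of `E_1^(i, w)` for the characters which violate the
condition `C`. -/
noncomputable def violPart (X : SpecialFibre.{u, v} Ω Γ n q) (C : ℕ → (Γ → Ω) → Prop)
    (i w : ℕ) : Submodule Ω X.C :=
  ⨆ χ ∈ {χ : Γ → Ω | Violates X C i w χ}, X.primPart i w χ

/-- The dimension of `violPart`. -/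
noncomputable def violDim (X : SpecialFibre.{u, v} Ω Γ n q) (C : ℕ → (Γ → Ω) → Prop) (i w : ℕ) :
    ℕ := finrank Ω (violPart X C i w)

end Pool.Agent.R942.WR
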