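import Pool.Agent.R942.WB.Count
import Pool.Agent.R942.WS.Tate

/-!
# The kernel of `N ^ i` in the weight two, and the transcendental part of `H^2`
-/

set_option autoImplicit false

namespace Pool.Agent.R942.WR

open Module Submodule Pool.Agent.Y143 Pool.Agent.R942.WM Pool.Agent.R942.WS Pool.Agent.R942.WB

universe u v

variable {Ω : Type u} [Field Ω] [CharZero Ω] {Γ : Type} {n q : ℕ}

variable {X : SpecialFibre.{u, v} Ω Γ n q}

/-- The dimension of the kernel is at most the difference between the second Betti number of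
`Y^(a+1)` and the dimension of the space spanned by the classes of divisors. -/
lemma kap_le (A : DivisorClasses X) {a e : ℕ} (ha : n = a + 3 + e) :
    kap X.diff X.tot ((a + 1 : ℕ) : ℤ) (((a + 3 : ℕ) : ℤ) - n) ≤
      finrank Ω (X.gr a 2) - finrank Ω (Submodule.span Ω (A.A1 a : Set (X.H a))) := by
  set S := Submodule.span Ω (A.A1 a : Set (X.H a)) with hS
  have hSle : S ≤ X.gr a 2 := Submodule.span_le.2 fun x hx => A.A1_le a x hx
  set K := Zc X.diff X.tot (-((a + 1 : ℕ) : ℤ)) (((a + 3 : ℕ) : ℤ) - n) ⊓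
    Bd X.diff X.tot ((a + 1 : ℕ) : ℤ) (((a + 3 : ℕ) : ℤ) - n) with hK
  set B := Bd X.diff X.tot (-((a + 1 : ℕ) : ℤ)) (((a + 3 : ℕ) : ℤ) - n) with hB
  set E := X.tot (a : ℤ) (((a + 2 : ℕ) : ℤ) - n) ⊓ K.comap (X.diff a) with hE
  set E0 := E ⊓ S.comap (LinearMap.proj a : X.C →ₗ[Ω] X.H a) with hE0
  have hBK : B ≤ K := by
    apply le_inf (bd_le_zc' _ _)
    rintro _ ⟨x, hx, rfl⟩
    refine ⟨x, ?_, ?_⟩
    · have h1 := hx
      unfold SpecialFibre.tot at h1 ⊢
      have h2 : x ∈ X.E₁ (((a + 1 : ℕ) : ℤ) + 1)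
          ((n : ℤ) + (((a + 3 : ℕ) : ℤ) - n - 1) - (((a + 1 : ℕ) : ℤ) + 1)) := by
        rw [← X.E₁_neg (((a + 1 : ℕ) : ℤ) + 1)]
        exact X.mem_E₁_cast (by ring) (by ring) h1
      exact X.mem_E₁_cast rfl (by ring) (X.E₁_incl (by push_cast; omega) h2)
    · rw [← X.diff_neg]
  have h1 : (finrank Ω K : ℤ) - finrank Ω B ≤ finrank Ω E - finrank Ω E0 := by
    refine finrank_ge_of_map (f := X.diff a) inf_le_left hBK (fun y hy => ?_) (fun v hv => ?_)
    · obtain ⟨z, hz, hzy⟩ := hy.2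
      have hz' : z ∈ X.tot (a : ℤ) (((a + 2 : ℕ) : ℤ) - n) :=
        tot_cast (by push_cast; ring) (by push_cast; ring) hz
      have hzy' : X.diff a z = y := by
        rw [← hzy]
        exact diff_cast (by push_cast; ring) z
      refine ⟨z, ⟨hz', ?_⟩, ?_⟩
      · show X.diff a z ∈ K
        rw [hzy']
        exact hy
      · rw [hzy', sub_self]
        exact Submodule.zero_mem _
    · have hv1 : v ∈ X.tot (a : ℤ) (((a + 2 : ℕ) : ℤ) - n) := hv.1.1
      have hv2 : X.diff a v ∈ K := hv.1.2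
      have hv3 : v a ∈ S := hv.2
      have hvc : v (a + 2) ∈ X.gr (a + 2) 0 := tot_deg hv1 (by push_cast; ring)
      have hx1 : X.diff a v ∈ X.tot (-((a + 1 : ℕ) : ℤ)) (((a + 1 + 2 : ℕ) : ℤ) - n) :=
        tot_cast rfl (by push_cast; ring) hv2.1.1
      have h2 := bd_of (X := X) (a := a) (k := 2) le_rfl hx1 hv2.1.2 hv1 rfl (fun h => by
        obtain ⟨c', hc1, hc2, hc3⟩ := two_inj A ha hv3 hvc (fun u' _ => by
          rw [← res_lef_pow, ← X.pair_gys, h, map_zero, LinearMap.zero_apply])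
        exact ⟨c', by simpa using hc1, hc2, hc3⟩)
      have h3 : ((a + 1 + 2 : ℕ) : ℤ) - n = ((a + 3 : ℕ) : ℤ) - n := by push_cast; ring
      rw [h3] at h2
      exact h2
  have h2 : (finrank Ω E : ℤ) - finrank Ω E0 ≤ finrank Ω (X.gr a 2) - finrank Ω S := by
    refine finrank_rel (LinearMap.graph (LinearMap.proj a : X.C →ₗ[Ω] X.H a)) inf_le_left hSle
      (fun v hv => ⟨v a, ?_, ?_⟩) (fun v x hv hx hvx hx0 => ⟨hv, ?_⟩)
    · exact tot_deg hv.1 (by push_cast; ring)
    · rw [LinearMap.mem_graph_iff]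
      rfl
    · rw [LinearMap.mem_graph_iff] at hvx
      show (LinearMap.proj a : X.C →ₗ[Ω] X.H a) v ∈ S
      rw [← hvx]
      exact hx0
  unfold kap
  exact h1.trans h2

/-- The cokernel in the degree `j` has the dimension of the kernel in the degree `-j`. -/
lemma cok_dual (i : ℤ) (hi : 1 ≤ i) (j : ℤ) :
    cok X.diff X.tot i j = kap X.diff X.tot i (-j) := by
  have hperf := X.lefDual.perf i j
  have hsub1 : Zc X.diff X.tot i j ≤ X.tot i j := inf_le_left
  have hzn : Zc X.diff X.tot (-i) j ≤ X.tot i j := inf_le_left.trans (tot_neg i j).le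
  have hsub2 : Zc X.diff X.tot (-i) j ⊔ Bd X.diff X.tot i j ≤ X.tot i j :=
    sup_le hzn ((bd_le_zc' _ _).trans inf_le_left)
  have h1 := hperf.finrank_annR hsub1
  have h2 := hperf.finrank_annR hsub2
  rw [ann_zc] at h1
  rw [annR_sup] at h2
  have e1 : annR X.psi (Zc X.diff X.tot (-i) j) (X.tot (-i) (-j)) = Bd X.diff X.tot i (-j) := by
    have := ann_zc (X := X) (-i) j
    rw [neg_neg] at this
    rw [← this, tot_neg i (-j)]
  have e2 : annR X.psi (Bd X.diff X.tot i j) (X.tot (-i) (-j)) = Zc X.diff X.tot (-i) (-j) :=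
    ann_bd i j
  rw [e1, e2, inf_comm] at h2
  unfold cok kap
  omega

end Pool.Agent.R942.WR
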