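import Pool.Agent.R942.WR.Defs

/-!
# The number of wrong eigenvalues for smooth proper varieties: definition
-/

set_option autoImplicit false

namespace Pool.Agent.R942.WR

open Module Pool.Agent.Y143 Pool.Agent.R942.WD

universe u v

/-- At most `K` eigenvalues (with multiplicities) of the Frobenius lift `φ` of the extension `K'` (with
residue field with `q ^ f` elements) on the graded piece `gr^N_s H^m(X)` are not `q ^ f`-Weil numbers
of weight `m + s`. -/
def FrobAtMost {Ω : Type u} [Field Ω] [CharZero Ω] {W : Type} [Group W]
    {deg : W →* Multiplicative ℤ} {n q : ℕ} {X : ProperVariety.{u, v} Ω W deg n q}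
    (A : Alteration X) (m : ℕ) (s : ℤ) (K : ℕ) : Prop :=
  AtMost (q ^ A.f) (X.act m A.φ) (X.N m) m s K

end Pool.Agent.R942.WR
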